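import Mathlib

namespace Pool.Agent.Results.MP_e04167_ag.Counter

open Polynomial

/-- `SG n`: coefficient vectors `(z_1, …, z_n)` (indexed from `0`) with `z_1 = 0` whose monic
polynomial has roots `l i` with `∏_{i<j} (l i - l j)^2 = 1`. -/
def SG (n : ℕ) : Set (Fin n → ℂ) :=
  {z | (∀ i : Fin n, i.val = 0 → z i = 0) ∧ ∃ l : Fin n → ℂ,
    X ^ n + ∑ i : Fin n, C (z i) * X ^ (n - 1 - i.val) = ∏ i : Fin n, (X - C (l i)) ∧
    ∏ i : Fin n, ∏ j ∈ Finset.Ioi i, (l i - l j) ^ 2 = 1}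

lemma roots3 (A B : ℂ) : ∃ a b : ℂ, A = -(a ^ 2 + a * b + b ^ 2) ∧ B = a * b * (a + b) := by
  obtain ⟨a, ha⟩ := IsAlgClosed.exists_root (X ^ 3 + C A * X + C B : ℂ[X]) (by
    have : (X ^ 3 + C A * X + C B : ℂ[X]).degree = 3 := by compute_degree!
    rw [this]; norm_num)
  simp only [IsRoot, eval_add, eval_mul, eval_pow, eval_X, eval_C] at ha
  obtain ⟨w, hw⟩ := IsAlgClosed.exists_pow_nat_eq (-3 * a ^ 2 - 4 * A) (by norm_num : 0 < 2)
  refine ⟨a, (w - a) / 2, ?_, ?_⟩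
  · linear_combination (1 / 4 : ℂ) * hw
  · linear_combination ha - a / 4 * hw

lemma four (d r s : ℂ) (h : r ^ 2 + s ^ 2 = d ^ 2) :
    (d + r - s) * (d + r + s) * (d - r - s) * (d - r + s) = -4 * r ^ 2 * s ^ 2 := by
  linear_combination (r ^ 2 + s ^ 2 - d ^ 2) * h

lemma pairs (d : Fin 6 → Fin 6 → ℂ) : ∏ i : Fin 6, ∏ j ∈ Finset.Ioi i, d i j =
    d 0 1 * d 0 2 * d 0 3 * d 0 4 * d 0 5 * d 1 2 * d 1 3 * d 1 4 * d 1 5 * d 2 3 * d 2 4 *
      d 2 5 * d 3 4 * d 3 5 * d 4 5 := by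
  rw [Fin.prod_univ_six, show Finset.Ioi (0 : Fin 6) = {1, 2, 3, 4, 5} from by decide,
    show Finset.Ioi (1 : Fin 6) = {2, 3, 4, 5} from by decide,
    show Finset.Ioi (2 : Fin 6) = {3, 4, 5} from by decide,
    show Finset.Ioi (3 : Fin 6) = {4, 5} from by decide,
    show Finset.Ioi (4 : Fin 6) = {5} from by decide,
    show Finset.Ioi (5 : Fin 6) = ∅ from by decide]
  simp [mul_assoc]

lemma mem_SG (A B : ℂ) (h : 2 ^ 18 * (4 * A ^ 3 + 27 * B ^ 2) ^ 5 = 1) :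
    ![0, 5 * A, 20 * B, -5 * A ^ 2, -4 * A * B, -8 * B ^ 2 - A ^ 3] ∈ SG 6 := by
  obtain ⟨a, b, rfl, rfl⟩ := roots3 A B
  obtain ⟨c, hc⟩ : ∃ c, c = -(a + b) := ⟨_, rfl⟩
  obtain ⟨r, hr⟩ := IsAlgClosed.exists_pow_nat_eq ((a - b) * (a - c)) (by norm_num : 0 < 2)
  obtain ⟨s, hs⟩ := IsAlgClosed.exists_pow_nat_eq ((b - a) * (b - c)) (by norm_num : 0 < 2)
  obtain ⟨u, hu⟩ := IsAlgClosed.exists_pow_nat_eq ((c - a) * (c - b)) (by norm_num : 0 < 2)
  refine ⟨fun i hi => ?_, ![a + r, a - r, b + s, b - s, c + u, c - u], ?_, ?_⟩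
  · obtain rfl : i = 0 := Fin.ext hi
    rfl
  · apply Polynomial.funext
    intro t
    simp only [Fin.sum_univ_six, Fin.prod_univ_six, eval_add, eval_mul, eval_pow, eval_X, eval_C,
      eval_sub]
    simp
    have e : (t - (a + r)) * (t - (a - r)) * (t - (b + s)) * (t - (b - s)) * (t - (c + u)) *
        (t - (c - u)) = ((t - a) ^ 2 - r ^ 2) * ((t - b) ^ 2 - s ^ 2) * ((t - c) ^ 2 - u ^ 2) := by
      ring
    rw [e, hr, hs, hu, hc]
    ring
  · have k1 := four (a - b) r s (by rw [hr, hs]; ring)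
    have k2 := four (a - c) r u (by rw [hr, hu]; ring)
    have k3 := four (b - c) s u (by rw [hs, hu]; ring)
    have e : ∀ l : Fin 6 → ℂ, ∏ i : Fin 6, ∏ j ∈ Finset.Ioi i, (l i - l j) ^ 2 =
        ((l 0 - l 1) * (l 2 - l 3) * (l 4 - l 5)) ^ 2 *
        (((l 0 - l 2) * (l 0 - l 3) * (l 1 - l 2) * (l 1 - l 3)) *
        ((l 0 - l 4) * (l 0 - l 5) * (l 1 - l 4) * (l 1 - l 5)) *
        ((l 2 - l 4) * (l 2 - l 5) * (l 3 - l 4) * (l 3 - l 5))) ^ 2 := by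
      intro l
      rw [pairs (fun i j => (l i - l j) ^ 2)]
      simp only [mul_pow]
      ac_rfl
    rw [e]
    have e1 : (a + r - (b + s)) * (a + r - (b - s)) * (a - r - (b + s)) * (a - r - (b - s)) =
        -4 * r ^ 2 * s ^ 2 := by rw [← k1]; ring
    have e2 : (a + r - (c + u)) * (a + r - (c - u)) * (a - r - (c + u)) * (a - r - (c - u)) =
        -4 * r ^ 2 * u ^ 2 := by rw [← k2]; ring
    have e3 : (b + s - (c + u)) * (b + s - (c - u)) * (b - s - (c + u)) * (b - s - (c - u)) =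
        -4 * s ^ 2 * u ^ 2 := by rw [← k3]; ring
    show ((a + r - (a - r)) * (b + s - (b - s)) * (c + u - (c - u))) ^ 2 *
      (((a + r - (b + s)) * (a + r - (b - s)) * (a - r - (b + s)) * (a - r - (b - s))) *
      ((a + r - (c + u)) * (a + r - (c - u)) * (a - r - (c + u)) * (a - r - (c - u))) *
      ((b + s - (c + u)) * (b + s - (c - u)) * (b - s - (c + u)) * (b - s - (c - u)))) ^ 2 = 1
    rw [e1, e2, e3, ← h]
    have e4 : 4 * (-(a ^ 2 + a * b + b ^ 2)) ^ 3 + 27 * (a * b * (a + b)) ^ 2 =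
        r ^ 2 * s ^ 2 * u ^ 2 := by rw [hr, hs, hu, hc]; ring
    rw [e4]
    ring

theorem result : ∃ E : WeierstrassCurve ℂ, E.IsElliptic ∧
    ∃ F : Fin 6 → MvPolynomial (Fin 2) ℂ,
      (∀ x y : ℂ, E.toAffine.Equation x y → (fun i => MvPolynomial.eval ![x, y] (F i)) ∈ SG 6) ∧
      ∃ x y x' y' : ℂ, E.toAffine.Equation x y ∧ E.toAffine.Equation x' y' ∧
        (fun i => MvPolynomial.eval ![x, y] (F i)) ≠
          (fun i => MvPolynomial.eval ![x', y'] (F i)) := by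
  obtain ⟨c, hc⟩ := IsAlgClosed.exists_pow_nat_eq ((2 : ℂ) ^ 18)⁻¹ (by norm_num : 0 < 5)
  obtain ⟨α, hα⟩ := IsAlgClosed.exists_pow_nat_eq (-c / 4) (by norm_num : 0 < 3)
  obtain ⟨β, hβ⟩ := IsAlgClosed.exists_pow_nat_eq (c / 27) (by norm_num : 0 < 2)
  have hE : ∀ x y : ℂ, (⟨0, 0, 0, 0, 1⟩ : WeierstrassCurve ℂ).toAffine.Equation x y ↔
      y ^ 2 = x ^ 3 + 1 := by
    intro x y
    rw [WeierstrassCurve.Affine.equation_iff]; simp
  refine ⟨⟨0, 0, 0, 0, 1⟩, ⟨?_⟩, ![0, 5 * (MvPolynomial.C α * MvPolynomial.X 0),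
    20 * (MvPolynomial.C β * MvPolynomial.X 1), -5 * (MvPolynomial.C α * MvPolynomial.X 0) ^ 2,
    -4 * (MvPolynomial.C α * MvPolynomial.X 0) * (MvPolynomial.C β * MvPolynomial.X 1),
    -8 * (MvPolynomial.C β * MvPolynomial.X 1) ^ 2 - (MvPolynomial.C α * MvPolynomial.X 0) ^ 3],
    fun x y h => ?_, 0, 1, -1, 0, ?_, ?_, fun h => ?_⟩
  · rw [isUnit_iff_ne_zero]
    simp only [WeierstrassCurve.Δ, WeierstrassCurve.b₂, WeierstrassCurve.b₄, WeierstrassCurve.b₆,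
      WeierstrassCurve.b₈]
    norm_num
  · rw [hE] at h
    have h1 : 4 * (α * x) ^ 3 + 27 * (β * y) ^ 2 = c := by
      rw [mul_pow, mul_pow, hα, hβ, h]; ring
    convert mem_SG (α * x) (β * y) (by rw [h1, hc]; norm_num) using 1
    ext i
    fin_cases i <;> simp
  · rw [hE]; norm_num
  · rw [hE]; norm_num
  · have h1 := congrFun h 1
    simp at h1
    rw [h1] at hα
    have : c = 0 := by linear_combination 4 * hα
    rw [this] at hc
    norm_num at hc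

end Pool.Agent.Results.MP_e04167_ag.Counter
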